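import Pool.Agent.Q59.DN.Sys

/-!
# The Tate classes on the Fermat varieties of a given dimension come from one degree

Let `X : x_0 ^ m + ... + x_(n+1) ^ m = 0` be the Fermat variety of degree `m` and even dimension `n`
over a number field `K`. Over `K(μ_m)` its `ℓ`-adic cohomology of degree `n` is (up to the class of the
linear sections) a sum of lines `V(s)` indexed by the tuples `s` of `n + 2` nonzero residues modulo
`m` of sum zero; Frobenius elements act on `V(s)` by Jacobi sums, and `V(s)(n/2)` consists of Tate
classes if and only if `s` is a Hodge character (Stickelberger, Weil, Shioda). So the Tate conjecture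
for all these varieties over all number fields says that `V(s)` is spanned by algebraic classes for
every Hodge character `s`.

For every `m` let `A m` be the family of the characters `s` (as multisets) whose lines are spanned by
classes of algebraic cycles. These families have the properties of `Admissible` below (Shioda,
Katsura, Aoki), and they are compatible in the sense of `System`: by pull-back and push-forward along
`x_i ↦ x_i ^ N` the line of `s` in degree `m` is algebraic if and only if the line of `N s` in
degree `N m` is.

The theorem. Let `N = n + 2` and let `M = degree N` be the product of the `p ^ (⌊4 N / (p - 1)⌋ + 1)`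
over the primes `p ≤ 4 N + 1`. For EVERY degree `m ≥ 2` and every Hodge character `s` of degree `m`
with at most `N` entries, let `a_1, ..., a_r` be those entries which are chosen below (all of them are
killed by `M`, i.e. come from the degree `M`). Then these entries, read in degree `M`, and for odd `r`
together with `M / 2`, form a Hodge character `t` of degree `M`, again with at most `N` entries, and in
every system `s` is algebraic if and only if `t` is.

Consequently the Tate conjecture (and the Hodge conjecture) for the single Fermat variety of dimension
`n` and degree `M` implies it for the Fermat varieties of dimension `n` (and smaller even dimension)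
of all degrees, over all number fields: up to the standard classes of Shioda and Aoki, a Tate class on
a Fermat variety of dimension `n` and arbitrary degree is the pull-back of a Tate class from degree
`degree (n + 2)`, and it only involves coordinates of the given class.
-/

namespace Pool.Agent.Results.MP_938ce2_ag.FermatBoundedDegree

open Pool.Agent.H916R2

/-- The closure properties of the family of the characters of algebraic classes of degree `m`. -/
structure Admissible (m : ℕ) (A : Multiset (ZMod m) → Prop) : Prop where
  /-- members are Hodge characters -/
  hodge : ∀ s, A s → IsHodge m s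
  /-- conjugation -/
  neg : ∀ s, A s → A (s.map fun a => -a)
  /-- pairs -/
  pair : ∀ a : ZMod m, a ≠ 0 → A {a, -a}
  /-- standard characters for odd primes -/
  standard : ∀ p : ℕ, p.Prime → p ≠ 2 → p ∣ m → ∀ a : ZMod m, (p : ZMod m) * a ≠ 0 →
    A (-((p : ZMod m) * a) ::ₘ
      (Multiset.range p).map fun i : ℕ => a + (i : ZMod m) * ((m / p : ℕ) : ZMod m))
  /-- standard characters for the prime two -/
  standardTwo : 2 ∣ m → ∀ a : ZMod m, 2 * a ≠ 0 →
    A {a, a + ((m / 2 : ℕ) : ZMod m), -(2 * a), ((m / 2 : ℕ) : ZMod m)}
  /-- closed under union -/
  join : ∀ s t, A s → A t → A (s + t)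
  /-- closed under removal of a pair -/
  cancel : ∀ a s, A (a ::ₘ -a ::ₘ s) → A s

/-- Admissible families of all degrees, compatible with the multiplications by positive integers. -/
structure System (A : (m : ℕ) → Multiset (ZMod m) → Prop) : Prop where
  /-- every family is admissible -/
  admissible : ∀ m : ℕ, 0 < m → Admissible m (A m)
  /-- pull-back and push-forward along `x_i ↦ x_i ^ N` -/
  level : ∀ N m M : ℕ, 0 < M → N * m = M → ∀ s : Multiset (ZMod m),
    A m s ↔ A M (s.map fun a => ((N * a.val : ℕ) : ZMod M))

/-- The degree `M(N)`: the product of `p ^ (⌊4 N / (p - 1)⌋ + 1)` over the primes `p ≤ 4 N + 1`. -/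
def degree (N : ℕ) : ℕ :=
  ∏ p ∈ (Finset.range (4 * N + 2)).filter Nat.Prime, p ^ (4 * N / (p - 1) + 1)

/-- The residue modulo `M` corresponding to a residue `a` modulo `m` with `M * a = 0`: both are the
same multiple of the unit, `a / m = (M * a / m) / M`. -/
def transfer (m M : ℕ) (a : ZMod m) : ZMod M := ((M * a.val / m : ℕ) : ZMod M)

/-- **Structure of the Hodge characters with at most `N` entries of all degrees.** -/
theorem result (N m : ℕ) (hm : 2 ≤ m) (s : Multiset (ZMod m)) (hs : IsHodge m s)
    (hN : Multiset.card s ≤ N) :
    ∃ s0 ≤ s, (∀ a ∈ s0, (degree N : ZMod m) * a = 0) ∧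
      ∃ t : Multiset (ZMod (degree N)),
        (t = s0.map (transfer m (degree N)) ∨
          (2 ∣ m ∧
            t = ((degree N / 2 : ℕ) : ZMod (degree N)) ::ₘ s0.map (transfer m (degree N)))) ∧
        IsHodge (degree N) t ∧ Multiset.card t ≤ N ∧
        ∀ A : (m : ℕ) → Multiset (ZMod m) → Prop, System A → (A m s ↔ A (degree N) t) := by
  have : NeZero m := ⟨by omega⟩
  obtain ⟨s0, h1, h2, t, h3, h4, h5, h6⟩ := Pool.Agent.Q59.DN.transport (N := N) hm hs hN
  refine ⟨s0, h1, h2, t, h3, h4, h5, fun A hA => h6 A ⟨fun m hm => ?_, fun N m M hM h s => ?_⟩⟩
  · have h := hA.admissible m hm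
    exact ⟨h.hodge, h.neg, h.pair, h.standard, h.standardTwo, h.join, h.cancel⟩
  · exact hA.level N m M hM h s

end Pool.Agent.Results.MP_938ce2_ag.FermatBoundedDegree
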