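import Pool.Agent.Q55.Galois

/-!
# The index of the Tate classes on the powers of a variety over a number field

Let `Γ` be the Galois group of a number field, acting on an `ℓ`-adic (or any other Weil) cohomology
theory of the varieties over the algebraic closure; see `GaloisAction` for the formal properties of
this action which are used. A Tate class is a class which is fixed, up to the twist, by a subgroup
of finite index of `Γ`. Let `X` be a variety, and let `pw X n` be the product of `n + 1` copies
of `X`. No standard conjecture and no semisimplicity is assumed.

The quotient of the dimension of the space of the Tate classes on `pw X n` and of the rank of the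
group of the cycles on `pw X n` modulo numerical equivalence converges to an element `N ≥ 1` of
`ℕ ∪ {∞}`, and

* `N = 1` if and only if for all powers of `X` the Tate conjecture is true and homological and
  numerical equivalence agree (so if one of this fails for one power of `X`, asymptotically the
  cycles modulo numerical equivalence account for at most one half of the Tate classes);
* if `N` is finite then the standard conjectures B, C and D hold for all powers of `X`, and all Tate
  classes on all powers of `X` are obtained by algebraic correspondences from the classes of cycles
  and at most `N - 1` Tate classes.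
-/

open CategoryTheory AlgebraicGeometry Filter Topology

open scoped ENNReal

universe u v w

namespace Pool.Agent.Results.MP_938ce2_ag.TateIndexLaw

open Pool.Agent.H914 Pool.Agent.H914.VarClass Pool.Agent.H914.VarClass.Obj
  Pool.Agent.H914.WeilCohomology Pool.Agent.Q55
open Pool.Agent.Y129 (pw)

variable {k : Type u} [Field k] {𝒱 : VarClass k} {ops : CycleOps 𝒱}

theorem result (W : WeilCohomology.{u, v} ops) {Γ : Type w} [Group Γ] (G : GaloisAction W Γ)
    (X : 𝒱.Obj) [Nontrivial (W.H X)] :
    ∃ N : ℕ∞, 1 ≤ N ∧
      Tendsto (tateRatio G X) atTop (𝓝 (N : ℝ≥0∞)) ∧
      (∀ n, tateRatio G X (2 * n + 1) ≤ (N : ℝ≥0∞)) ∧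
      (N = 1 ↔ ∀ n, TateConj G (pw X n) ∧ HomEqNum W (pw X n)) ∧
      (N ≠ ⊤ → (∀ n, StandardBCD W (pw X n)) ∧
        ∃ (r : ℕ) (c : Fin r → Σ m, W.H (pw X m)), (r : ℕ∞) + 1 ≤ N ∧ GeneratedBy G X c) :=
  tate_index G X

end Pool.Agent.Results.MP_938ce2_ag.TateIndexLaw
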